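import Mathlib

set_option autoImplicit false

open Filter Topology MvPolynomial
open scoped Matrix

namespace Pool.Agent.KS6_17.SAD

/-- the derivative of a polynomial function -/
theorem hasFDerivAt_eval {n : ℕ} (P : MvPolynomial (Fin n) ℂ) (z : Fin n → ℂ) :
    HasFDerivAt (fun w : Fin n → ℂ => eval w P)
      (∑ j, (eval z (pderiv j P)) • ContinuousLinearMap.proj (R := ℂ) (φ := fun _ : Fin n => ℂ) j)
      z := by
  induction P using MvPolynomial.induction_on with
  | C a =>
    have e : (fun w : Fin n → ℂ => eval w (C a)) = fun _ => a := by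
      funext w; simp
    rw [e]
    refine (hasFDerivAt_const (𝕜 := ℂ) a z).congr_fderiv ?_
    ext w
    simp
  | add p q hp hq =>
    have h := hp.add hq
    have e : (fun w : Fin n → ℂ => eval w (p + q)) =
        (fun w => eval w p) + fun w => eval w q := by
      funext w; simp
    rw [e]
    refine h.congr_fderiv ?_
    rw [← Finset.sum_add_distrib]
    refine Finset.sum_congr rfl fun j _ => ?_
    rw [map_add, map_add]
    exact (add_smul _ _ _).symm
  | mul_X p i hp =>
    have hi : HasFDerivAt (fun w : Fin n → ℂ => w i)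
      (ContinuousLinearMap.proj (R := ℂ) (φ := fun _ : Fin n => ℂ) i) z := hasFDerivAt_apply i z
    have h := hp.mul hi
    have e : (fun w : Fin n → ℂ => eval w (p * X i)) = fun w => eval w p * w i := by
      funext w; simp
    rw [e]
    refine h.congr_fderiv ?_
    ext w
    simp only [Derivation.leibniz, smul_eq_mul, map_add, map_mul, eval_X, pderiv_X, Pi.single_apply]
    simp only [add_apply, smul_apply, ContinuousLinearMap.proj_apply, smul_eq_mul,
      sum_apply, Finset.mul_sum]
    rw [show (eval z p * w i) = ∑ j, (if j = i then eval z p * w j else 0) by simp,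
      ← Finset.sum_add_distrib]
    refine Finset.sum_congr rfl fun j _ => ?_
    by_cases hj : j = i
    · subst hj; simp; ring
    · have hj' : ¬ i = j := fun h => hj h.symm
      simp [hj, hj']; ring

/-- the Jacobian matrix -/
noncomputable def J {n : ℕ} (G : Fin n → MvPolynomial (Fin n) ℂ) (v : Fin n → ℂ) :
    Matrix (Fin n) (Fin n) ℂ := Matrix.of fun i j => eval v (pderiv j (G i))

theorem hasFDerivAt_map {n : ℕ} (G : Fin n → MvPolynomial (Fin n) ℂ) (v : Fin n → ℂ) :
    HasFDerivAt (fun w i => eval w (G i)) (LinearMap.toContinuousLinearMap (J G v).mulVecLin) v := by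
  rw [hasFDerivAt_pi']
  intro i
  refine (hasFDerivAt_eval (G i) v).congr_fderiv ?_
  ext w
  simp [J, Matrix.mulVec, dotProduct]

theorem euler {n d : ℕ} {G : Fin n → MvPolynomial (Fin n) ℂ} (hG : ∀ i, (G i).IsHomogeneous d)
    (v : Fin n → ℂ) : J G v *ᵥ v = (d : ℂ) • fun i => eval v (G i) := by
  funext i
  have h := congrArg (eval v) (hG i).sum_X_mul_pderiv
  simp only [map_sum, map_mul, eval_X, nsmul_eq_mul, map_natCast] at h
  simp only [J, Matrix.mulVec, dotProduct, Matrix.of_apply, Pi.smul_apply, smul_eq_mul]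
  rw [← h]
  exact Finset.sum_congr rfl fun j _ => mul_comm _ _

/-- a matrix with a small value of the characteristic polynomial has a close eigenvalue -/
theorem near_root {n : ℕ} (A : Matrix (Fin n) (Fin n) ℂ) (μ : ℂ) (δ : ℝ) (hδ : 0 < δ)
    (h : ‖(Matrix.scalar (Fin n) μ - A).det‖ < δ ^ n) :
    ∃ ν, ‖μ - ν‖ < δ ∧ ∃ w : Fin n → ℂ, w ≠ 0 ∧ A *ᵥ w = ν • w := by
  by_contra hcon
  push Not at hcon
  have hs : A.charpoly.Splits := IsAlgClosed.splits _
  have hm : A.charpoly.Monic := A.charpoly_monic
  have hr : ∀ r ∈ A.charpoly.roots, δ ≤ ‖μ - r‖ := by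
    intro r hr
    by_contra hlt
    rw [not_le] at hlt
    rw [Polynomial.mem_roots hm.ne_zero, Polynomial.IsRoot.def, Matrix.eval_charpoly] at hr
    obtain ⟨w, hw, hw'⟩ := Matrix.exists_mulVec_eq_zero_iff.2 hr
    refine hcon r hlt w hw ?_
    rw [Matrix.sub_mulVec, sub_eq_zero] at hw'
    rw [← hw']
    simp [Matrix.scalar_apply, Matrix.diagonal_const_mulVec]
  have hcard : A.charpoly.roots.card = n := by
    rw [← hs.natDegree_eq_card_roots, Matrix.charpoly_natDegree_eq_dim, Fintype.card_fin]
  have key : ∀ s : Multiset ℂ, (∀ r ∈ s, δ ≤ ‖μ - r‖) → δ ^ s.card ≤ ‖(s.map (μ - ·)).prod‖ := by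
    intro s
    induction s using Multiset.induction_on with
    | empty => intro _; simp
    | cons a s ih =>
      intro hs
      rw [Multiset.map_cons, Multiset.prod_cons, norm_mul, Multiset.card_cons, pow_succ, mul_comm]
      exact mul_le_mul (hs a (Multiset.mem_cons_self _ _))
        (ih fun r hr => hs r (Multiset.mem_cons_of_mem hr)) (by positivity) (norm_nonneg _)
  have h1 := key _ hr
  rw [← hs.eval_eq_prod_roots_of_monic hm, Matrix.eval_charpoly, hcard] at h1
  exact absurd h (not_lt.2 h1)

/-- the exponents of degree `d` -/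
noncomputable def S (n d : ℕ) : Finset (Fin n →₀ ℕ) := Finset.finsuppAntidiag Finset.univ d

theorem mem_S {n d : ℕ} {s : Fin n →₀ ℕ} : s ∈ S n d ↔ ∑ i, s i = d := by
  simp [S, Finset.mem_finsuppAntidiag]

theorem mem_S_of_coeff {n d : ℕ} {P : MvPolynomial (Fin n) ℂ} (hP : P.IsHomogeneous d)
    {s : Fin n →₀ ℕ} (hs : P.coeff s ≠ 0) : s ∈ S n d := by
  have := hP hs
  rw [mem_S, ← this, Finsupp.weight_apply, Finsupp.sum_fintype]
  · simp
  · simp

/-- the polynomials with given coefficients -/
noncomputable def poly {n : ℕ} (d : ℕ) (a : Fin n → S n d → ℂ) (i : Fin n) :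
    MvPolynomial (Fin n) ℂ := ∑ s : S n d, C (a i s) * monomial s.1 1

theorem poly_hom {n d : ℕ} (a : Fin n → S n d → ℂ) (i : Fin n) : (poly d a i).IsHomogeneous d := by
  refine IsHomogeneous.sum _ _ _ fun s _ => ?_
  rw [C_mul_monomial]
  refine isHomogeneous_monomial _ ?_
  have := mem_S.1 s.2
  rw [Finsupp.degree_eq_sum]
  exact this

theorem poly_coeff {n d : ℕ} {G : Fin n → MvPolynomial (Fin n) ℂ}
    (hG : ∀ i, (G i).IsHomogeneous d) : poly d (fun i s => (G i).coeff s.1) = G := by
  funext i
  ext t
  simp only [poly, coeff_sum, coeff_C_mul, coeff_monomial, mul_ite, mul_one, mul_zero]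
  by_cases ht : t ∈ S n d
  · rw [Finset.sum_eq_single (⟨t, ht⟩ : S n d)]
    · simp
    · intro s _ hs
      rw [if_neg]
      intro h
      exact hs (Subtype.ext h)
    · intro h; exact absurd (Finset.mem_univ _) h
  · rw [Finset.sum_eq_zero]
    · by_contra h
      exact ht (mem_S_of_coeff (hG i) (Ne.symm h))
    · intro s _
      rw [if_neg]
      rintro rfl
      exact ht s.2

theorem cont_eval {n d : ℕ} : Continuous fun z : (Fin n → S n d → ℂ) × (Fin n → ℂ) =>
    (fun i => eval z.2 (poly d z.1 i) : Fin n → ℂ) := by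
  refine continuous_pi fun i => ?_
  have : (fun z : (Fin n → S n d → ℂ) × (Fin n → ℂ) => eval z.2 (poly d z.1 i)) =
      fun z => ∑ s : S n d, z.1 i s * eval z.2 (monomial s.1 (1 : ℂ)) := by
    funext z
    simp [poly]
  rw [this]
  refine continuous_finsetSum _ fun s _ => Continuous.mul ?_ ?_
  · exact (continuous_apply s).comp ((continuous_apply i).comp continuous_fst)
  · exact (MvPolynomial.continuous_eval _).comp continuous_snd

theorem cont_J {n d : ℕ} : Continuous fun z : (Fin n → S n d → ℂ) × (Fin n → ℂ) =>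
    J (poly d z.1) z.2 := by
  refine continuous_matrix fun i j => ?_
  have : (fun z : (Fin n → S n d → ℂ) × (Fin n → ℂ) => J (poly d z.1) z.2 i j) =
      fun z => ∑ s : S n d, z.1 i s * eval z.2 (pderiv j (monomial s.1 (1 : ℂ))) := by
    funext z
    simp only [J, Matrix.of_apply, poly, map_sum]
    refine Finset.sum_congr rfl fun s _ => ?_
    rw [Derivation.leibniz, pderiv_C, smul_zero, add_zero, smul_eq_mul, map_mul, eval_C]
  rw [this]
  refine continuous_finsetSum _ fun s _ => Continuous.mul ?_ ?_
  · exact (continuous_apply s).comp ((continuous_apply i).comp continuous_fst)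
  · exact (MvPolynomial.continuous_eval _).comp continuous_snd

end Pool.Agent.KS6_17.SAD
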