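import Pool.Agent.KS6_17.SAD.Alg

set_option autoImplicit false

open Filter Topology MvPolynomial
open scoped Matrix ComplexOrder

namespace Pool.Agent.KS6_17.SAD

/-- At the fixed point given by `v`, with `G(v) = c v`: modulo the line of `v`, the Jacobian matrix
divided by `c` has an eigenvalue inside and an eigenvalue outside of the unit circle. -/
def Good {n : ℕ} (G : Fin n → MvPolynomial (Fin n) ℂ) (v : Fin n → ℂ) (c : ℂ) : Prop :=
  c ≠ 0 ∧ ∃ (μ₁ μ₂ : ℂ) (w₁ w₂ : Fin n → ℂ) (s₁ s₂ : ℂ), ‖μ₁‖ < 1 ∧ 1 < ‖μ₂‖ ∧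
    J G v *ᵥ w₁ = (c * μ₁) • w₁ + s₁ • v ∧ (∀ a : ℂ, w₁ ≠ a • v) ∧
    J G v *ᵥ w₂ = (c * μ₂) • w₂ + s₂ • v ∧ (∀ a : ℂ, w₂ ≠ a • v)

/-- the coefficient of the orthogonal projection of `w` to the line of `v` -/
noncomputable def th {n : ℕ} (v w : Fin n → ℂ) : ℂ := (w ⬝ᵥ star v) / (v ⬝ᵥ star v)

theorem vv_ne {n : ℕ} {v : Fin n → ℂ} (hv : v ≠ 0) : v ⬝ᵥ star v ≠ 0 := by
  intro h
  exact hv (dotProduct_self_star_eq_zero.1 h)

theorem th_smul {n : ℕ} {v : Fin n → ℂ} (hv : v ≠ 0) (c : ℂ) : th v (c • v) = c := by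
  unfold th
  rw [smul_dotProduct, smul_eq_mul, mul_div_assoc, div_self (vv_ne hv), mul_one]

variable {n d : ℕ}

/-- the polynomial map -/
noncomputable def E (z : (Fin n → S n d → ℂ) × (Fin n → ℂ)) : Fin n → ℂ :=
  fun i => eval z.2 (poly d z.1 i)

/-- the multiplier `c` of a fixed vector -/
noncomputable def cc (z : (Fin n → S n d → ℂ) × (Fin n → ℂ)) : ℂ := th z.2 (E z)

/-- the Jacobian matrix divided by `c` -/
noncomputable def M (z : (Fin n → S n d → ℂ) × (Fin n → ℂ)) : Matrix (Fin n) (Fin n) ℂ :=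
  (cc z)⁻¹ • J (poly d z.1) z.2

/-- a modification which kills `v` -/
noncomputable def M' (z : (Fin n → S n d → ℂ) × (Fin n → ℂ)) : Matrix (Fin n) (Fin n) ℂ :=
  M z - ((d : ℂ) / (z.2 ⬝ᵥ star z.2)) • Matrix.vecMulVec z.2 (star z.2)

theorem M'_mulVec (z : (Fin n → S n d → ℂ) × (Fin n → ℂ)) (w : Fin n → ℂ) :
    M' z *ᵥ w = M z *ᵥ w - ((d : ℂ) * th z.2 w) • z.2 := by
  unfold M' th
  rw [Matrix.sub_mulVec, Matrix.smul_mulVec]
  congr 1
  funext i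
  simp only [Matrix.mulVec, Matrix.vecMulVec, dotProduct, Matrix.of_apply, Pi.smul_apply,
    smul_eq_mul, Pi.star_apply]
  rw [show ∀ x : ℂ, (d : ℂ) / x * ∑ j, z.2 i * star (z.2 j) * w j =
    (d : ℂ) * ((∑ j, w j * star (z.2 j)) / x) * z.2 i from fun x => by
      rw [Finset.sum_congr rfl fun j _ => show z.2 i * star (z.2 j) * w j =
        z.2 i * (w j * star (z.2 j)) by ring, ← Finset.mul_sum]
      ring]

theorem cont_vv : Continuous fun z : (Fin n → S n d → ℂ) × (Fin n → ℂ) => z.2 ⬝ᵥ star z.2 := by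
  unfold dotProduct
  refine continuous_finsetSum _ fun i _ => ?_
  have h : Continuous fun z : (Fin n → S n d → ℂ) × (Fin n → ℂ) => z.2 i :=
    (continuous_apply i).comp continuous_snd
  exact h.mul h.star

theorem contAt_cc {z₀ : (Fin n → S n d → ℂ) × (Fin n → ℂ)} (h : z₀.2 ≠ 0) :
    ContinuousAt cc z₀ := by
  unfold cc th
  refine ContinuousAt.div ?_ cont_vv.continuousAt (vv_ne h)
  refine Continuous.continuousAt ?_
  unfold dotProduct
  refine continuous_finsetSum _ fun i _ => ?_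
  have h1 : Continuous fun z : (Fin n → S n d → ℂ) × (Fin n → ℂ) => z.2 i :=
    (continuous_apply i).comp continuous_snd
  exact ((continuous_apply i).comp cont_eval).mul h1.star

theorem contAt_M {z₀ : (Fin n → S n d → ℂ) × (Fin n → ℂ)} (h : z₀.2 ≠ 0) (h0 : cc z₀ ≠ 0) :
    ContinuousAt M z₀ :=
  ((contAt_cc h).inv₀ h0).smul cont_J.continuousAt

theorem contAt_M' {z₀ : (Fin n → S n d → ℂ) × (Fin n → ℂ)} (h : z₀.2 ≠ 0) (h0 : cc z₀ ≠ 0) :
    ContinuousAt M' z₀ :=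
  (contAt_M h h0).sub ((continuousAt_const.div cont_vv.continuousAt (vv_ne h)).smul
    (Continuous.matrix_vecMulVec continuous_snd continuous_snd.star).continuousAt)

theorem small_det {X : (Fin n → S n d → ℂ) × (Fin n → ℂ) → Matrix (Fin n) (Fin n) ℂ}
    {z₀ : (Fin n → S n d → ℂ) × (Fin n → ℂ)} (hX : ContinuousAt X z₀) (μ : ℂ) {ε : ℝ} (hε : 0 < ε)
    (w : Fin n → ℂ) (hw : w ≠ 0) (hμ : X z₀ *ᵥ w = μ • w) :
    ∀ᶠ z in 𝓝 z₀, ‖(Matrix.scalar (Fin n) μ - X z).det‖ < ε := by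
  have h1 : ContinuousAt (fun z => ‖(Matrix.scalar (Fin n) μ - X z).det‖) z₀ :=
    ((Continuous.matrix_det continuous_id).continuousAt.comp (continuousAt_const.sub hX)).norm
  have h2 : (Matrix.scalar (Fin n) μ - X z₀).det = 0 := by
    rw [← Matrix.exists_mulVec_eq_zero_iff]
    refine ⟨w, hw, ?_⟩
    rw [Matrix.sub_mulVec, hμ, sub_eq_zero]
    simp [Matrix.scalar_apply, Matrix.diagonal_const_mulVec]
  have h3 : Tendsto (fun z => ‖(Matrix.scalar (Fin n) μ - X z).det‖) (𝓝 z₀) (𝓝 0) := by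
    have := h1.tendsto
    rwa [h2, norm_zero] at this
  exact h3.eventually_lt_const hε

theorem loc (hd : 2 ≤ d) (z₀ : (Fin n → S n d → ℂ) × (Fin n → ℂ)) (hv₀ : z₀.2 ≠ 0)
    (h : ∀ c, E z₀ = c • z₀.2 → Good (poly d z₀.1) z₀.2 c) :
    ∀ᶠ z in 𝓝 z₀, ∀ c, E z = c • z.2 → Good (poly d z.1) z.2 c := by
  have hne : ∀ᶠ z : (Fin n → S n d → ℂ) × (Fin n → ℂ) in 𝓝 z₀, z.2 ≠ 0 :=
    continuous_snd.continuousAt.eventually_ne hv₀
  by_cases hfix : E z₀ = cc z₀ • z₀.2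
  swap
  · -- no fixed vector nearby
    have h1 : ContinuousAt (fun z : (Fin n → S n d → ℂ) × (Fin n → ℂ) => E z - cc z • z.2) z₀ :=
      cont_eval.continuousAt.sub ((contAt_cc hv₀).smul continuous_snd.continuousAt)
    filter_upwards [h1.eventually_ne (sub_ne_zero.2 hfix), hne] with z h2 h3 c hc
    refine (h2 ?_).elim
    have : cc z = c := by unfold cc; rw [hc, th_smul h3]
    rw [this, hc, sub_self]
  -- the fixed vector `v₀`
  obtain ⟨hc0, μ₁, μ₂, w₁, w₂, s₁, s₂, hμ₁, hμ₂, e₁, n₁, e₂, n₂⟩ := h _ hfix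
  have hdr : (2 : ℝ) ≤ d := by exact_mod_cast hd
  have hMv : ∀ z : (Fin n → S n d → ℂ) × (Fin n → ℂ), cc z ≠ 0 → E z = cc z • z.2 →
      M z *ᵥ z.2 = (d : ℂ) • z.2 := by
    intro z hz hE
    unfold M
    rw [Matrix.smul_mulVec, euler (poly_hom z.1)]
    change (cc z)⁻¹ • (d : ℂ) • E z = _
    rw [hE, smul_comm, smul_smul (cc z)⁻¹, inv_mul_cancel₀ hz, one_smul]
  have hMw : ∀ (z : (Fin n → S n d → ℂ) × (Fin n → ℂ)) (w : Fin n → ℂ) (μ s : ℂ), cc z ≠ 0 →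
      J (poly d z.1) z.2 *ᵥ w = (cc z * μ) • w + s • z.2 →
      M z *ᵥ w = μ • w + (s / cc z) • z.2 := by
    intro z w μ s hz hw
    unfold M
    rw [Matrix.smul_mulVec, hw, smul_add, smul_smul, smul_smul, ← mul_assoc, inv_mul_cancel₀ hz,
      one_mul, mul_comm _ s, div_eq_mul_inv]
  -- an eigenvector of `M`
  have hd1 : (d : ℂ) - μ₁ ≠ 0 := by
    intro h0
    have h1 : (d : ℂ) = μ₁ := sub_eq_zero.1 h0
    rw [← h1] at hμ₁
    rw [Complex.norm_natCast] at hμ₁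
    linarith
  have hμ₂0 : μ₂ ≠ 0 := by
    rintro rfl
    rw [norm_zero] at hμ₂
    linarith
  have E1 : M z₀ *ᵥ (w₁ + (-(s₁ / cc z₀) / ((d : ℂ) - μ₁)) • z₀.2) =
      μ₁ • (w₁ + (-(s₁ / cc z₀) / ((d : ℂ) - μ₁)) • z₀.2) := by
    rw [Matrix.mulVec_add, Matrix.mulVec_smul, hMw z₀ w₁ μ₁ s₁ hc0 e₁, hMv z₀ hc0 hfix]
    funext i
    simp only [Pi.add_apply, Pi.smul_apply, smul_eq_mul]
    field_simp
    ring
  have N1 : w₁ + (-(s₁ / cc z₀) / ((d : ℂ) - μ₁)) • z₀.2 ≠ 0 := by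
    intro h0
    refine n₁ (-(-(s₁ / cc z₀) / ((d : ℂ) - μ₁))) ?_
    rw [neg_smul]
    exact eq_neg_of_add_eq_zero_left h0
  have E2 : M' z₀ *ᵥ (w₂ + ((s₂ / cc z₀ - d * th z₀.2 w₂) / μ₂) • z₀.2) =
      μ₂ • (w₂ + ((s₂ / cc z₀ - d * th z₀.2 w₂) / μ₂) • z₀.2) := by
    have h1 : M' z₀ *ᵥ z₀.2 = 0 := by
      have h2 : th z₀.2 z₀.2 = 1 := by
        have := th_smul hv₀ 1
        rwa [one_smul] at this
      rw [M'_mulVec, hMv z₀ hc0 hfix, h2, mul_one, sub_self]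
    rw [Matrix.mulVec_add, Matrix.mulVec_smul, h1, smul_zero, add_zero, M'_mulVec,
      hMw z₀ w₂ μ₂ s₂ hc0 e₂]
    funext i
    simp only [Pi.add_apply, Pi.smul_apply, Pi.sub_apply, smul_eq_mul]
    field_simp
    ring
  have N2 : w₂ + ((s₂ / cc z₀ - d * th z₀.2 w₂) / μ₂) • z₀.2 ≠ 0 := by
    intro h0
    refine n₂ (-((s₂ / cc z₀ - d * th z₀.2 w₂) / μ₂)) ?_
    rw [neg_smul]
    exact eq_neg_of_add_eq_zero_left h0
  have p1 : 0 < (1 - ‖μ₁‖) ^ n := pow_pos (by linarith) n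
  have p2 : 0 < (‖μ₂‖ - 1) ^ n := pow_pos (by linarith) n
  filter_upwards [hne, (contAt_cc hv₀).eventually_ne hc0,
    small_det (contAt_M hv₀ hc0) μ₁ p1 _ N1 E1, small_det (contAt_M' hv₀ hc0) μ₂ p2 _ N2 E2]
    with z h3 h4 h5 h6 c hc
  have hcz : cc z = c := by unfold cc; rw [hc, th_smul h3]
  have hE : E z = cc z • z.2 := by rw [hcz, hc]
  obtain ⟨ν₁, hν₁, u₁, hu₁, f₁⟩ := near_root _ _ _ (by linarith) h5
  obtain ⟨ν₂, hν₂, u₂, hu₂, f₂⟩ := near_root _ _ _ (by linarith) h6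
  have q1 : ‖ν₁‖ < 1 := by
    have := norm_sub_norm_le ν₁ μ₁
    rw [norm_sub_rev] at hν₁
    linarith
  have q2 : 1 < ‖ν₂‖ := by
    have := norm_sub_norm_le μ₂ ν₂
    linarith
  have back : ∀ w : Fin n → ℂ, J (poly d z.1) z.2 *ᵥ w = c • (M z *ᵥ w) := by
    intro w
    unfold M
    rw [Matrix.smul_mulVec, smul_smul, hcz, mul_inv_cancel₀ (hcz ▸ h4), one_smul]
  refine ⟨hcz ▸ h4, ν₁, ν₂, u₁, u₂, 0, c * (d * th z.2 u₂), q1, q2, ?_, ?_, ?_, ?_⟩
  · rw [back, f₁, smul_smul, zero_smul, add_zero]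
  · rintro b rfl
    have hb : b ≠ 0 := by rintro rfl; exact hu₁ (zero_smul _ _)
    rw [Matrix.mulVec_smul, hMv z h4 hE, smul_smul, smul_smul] at f₁
    have h7 : (b * d - ν₁ * b) • z.2 = 0 := by rw [sub_smul, f₁, sub_self]
    rcases smul_eq_zero.1 h7 with h8 | h8
    · have h9 : (d : ℂ) = ν₁ := by
        have : b * ((d : ℂ) - ν₁) = 0 := by rw [← h8]; ring
        exact sub_eq_zero.1 ((mul_eq_zero.1 this).resolve_left hb)
      rw [← h9, Complex.norm_natCast] at q1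
      linarith
    · exact h3 h8
  · rw [back]
    have h7 : M z *ᵥ u₂ = ν₂ • u₂ + ((d : ℂ) * th z.2 u₂) • z.2 := by
      rw [← f₂, M'_mulVec, sub_add_cancel]
    rw [h7, smul_add, smul_smul, smul_smul]
  · rintro b rfl
    have hb : b ≠ 0 := by rintro rfl; exact hu₂ (zero_smul _ _)
    have h2 : th z.2 z.2 = 1 := by
      have := th_smul h3 1
      rwa [one_smul] at this
    have h1 : M' z *ᵥ z.2 = 0 := by
      rw [M'_mulVec, hMv z h4 hE, h2, mul_one, sub_self]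
    rw [Matrix.mulVec_smul, h1, smul_zero, smul_smul] at f₂
    rcases smul_eq_zero.1 f₂.symm with h8 | h8
    · rcases mul_eq_zero.1 h8 with h9 | h9
      · rw [h9, norm_zero] at q2; linarith
      · exact hb h9
    · exact h3 h8

end Pool.Agent.KS6_17.SAD
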