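import Pool.Agent.KS6_17.SAD.Loc
import Pool.Graph.R_seed8.Results.MP_10bb55_an.AllDimensions

set_option autoImplicit false

open Filter Topology MvPolynomial
open scoped Matrix LinearAlgebra.Projectivization
open Pool.Agent.Results.MP_10bb55_an.AllDimensions

namespace Pool.Agent.KS6_17.SAD

/-- the example of the library is good at all of its fixed vectors -/
theorem good_exMap (r n : ℕ) (v : Fin (r + 3) → ℂ) (hv : v ≠ 0) (c : ℂ)
    (hfix : (fun i => eval v ((exMap r n).F i)) = c • v) : Good (exMap r n).F v c := by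
  have hc : c ≠ 0 := by
    rintro rfl
    rw [zero_smul] at hfix
    exact (exMap r n).lift_ne_zero hv hfix
  obtain ⟨-, μ₁, μ₂, w₁, w₂, s₁, s₂, h1, h2, e1, n1, e2, n2⟩ := eigen_lift r n v hv c hfix
  have hJ : LinearMap.toContinuousLinearMap (J (exMap r n).F v).mulVecLin = DL r n v :=
    (hasFDerivAt_map (exMap r n).F v).unique (hasFDerivAt_lift r n v)
  have hJw : ∀ w, J (exMap r n).F v *ᵥ w = DL r n v w := fun w => by
    rw [← hJ]; simp
  exact ⟨hc, μ₁, μ₂, w₁, w₂, s₁, s₂, h1, h2, by rw [hJw, e1], n1, by rw [hJw, e2], n2⟩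

/-- the Jacobian matrix of homogeneous polynomials on a multiple of a vector -/
theorem J_smul {m d : ℕ} {G : Fin (m + 1) → MvPolynomial (Fin (m + 1)) ℂ}
    (hG : ∀ i, (G i).IsHomogeneous (d + 1)) (t : ℂ) (v : Fin (m + 1) → ℂ) :
    J G (t • v) = t ^ d • J G v := by
  ext i j
  simp only [J, Matrix.of_apply, Matrix.smul_apply, smul_eq_mul]
  have h1 : (pderiv j (G i)).IsHomogeneous d := by
    have := (hG i).pderiv (i := j)
    simpa using this
  exact eval_smul_of_homogeneous h1 t v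

theorem good_scale {m d : ℕ} {G : Fin (m + 1) → MvPolynomial (Fin (m + 1)) ℂ}
    (hG : ∀ i, (G i).IsHomogeneous (d + 1)) {t : ℂ} (ht : t ≠ 0) (v : Fin (m + 1) → ℂ) (c : ℂ)
    (h : Good G (t • v) (t ^ d * c)) : Good G v c := by
  obtain ⟨hc, μ₁, μ₂, w₁, w₂, s₁, s₂, h1, h2, e1, n1, e2, n2⟩ := h
  have key : ∀ (w : Fin (m + 1) → ℂ) (μ s : ℂ),
      J G (t • v) *ᵥ w = (t ^ d * c * μ) • w + s • t • v →
      J G v *ᵥ w = (c * μ) • w + (s * t / t ^ d) • v := by
    intro w μ s e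
    rw [J_smul hG, Matrix.smul_mulVec] at e
    have e' : (t ^ d)⁻¹ • t ^ d • (J G v *ᵥ w) = (t ^ d)⁻¹ • ((t ^ d * c * μ) • w + s • t • v) :=
      congrArg _ e
    rw [smul_smul, inv_mul_cancel₀ (pow_ne_zero _ ht), one_smul] at e'
    rw [e']
    funext i
    simp only [Pi.add_apply, Pi.smul_apply, smul_eq_mul]
    field_simp
  have key2 : ∀ w : Fin (m + 1) → ℂ, (∀ a : ℂ, w ≠ a • t • v) → ∀ a : ℂ, w ≠ a • v := by
    intro w hw a e
    refine hw (a / t) ?_
    rw [e, smul_smul, div_mul_cancel₀ _ ht]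
  exact ⟨right_ne_zero_of_mul hc, μ₁, μ₂, w₁, w₂, _, _, h1, h2, key _ _ _ e1, key2 _ n1,
    key _ _ _ e2, key2 _ n2⟩

/-- **The set of the maps all of whose fixed points are saddles has interior points.** -/
theorem main (k d : ℕ) (hk : 2 ≤ k) (hd : 2 ≤ d) : ∃ (f : HolMap k d) (ε : ℝ), 0 < ε ∧
    ∀ G : Fin (k + 1) → MvPolynomial (Fin (k + 1)) ℂ, (∀ i, (G i).IsHomogeneous d) →
      (∀ i s, ‖(G i).coeff s - (f.F i).coeff s‖ < ε) →
      ∃ g : HolMap k d, g.F = G ∧ ∀ p : ℙ ℂ (Fin (k + 1) → ℂ), g.map p = p →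
        ∀ i : Fin (k + 1), p.rep i ≠ 0 →
        ∃ A : (Fin k → ℂ) →L[ℂ] (Fin k → ℂ), HasFDerivAt (g.inChart i) A (ofPlane i p) ∧
          ∃ μ₁ μ₂ : ℂ, Module.End.HasEigenvalue (A : (Fin k → ℂ) →ₗ[ℂ] (Fin k → ℂ)) μ₁ ∧
            Module.End.HasEigenvalue (A : (Fin k → ℂ) →ₗ[ℂ] (Fin k → ℂ)) μ₂ ∧
            ‖μ₁‖ < 1 ∧ 1 < ‖μ₂‖ := by
  obtain ⟨r, rfl⟩ : ∃ r, k = r + 2 := ⟨k - 2, by omega⟩
  obtain ⟨n, rfl⟩ : ∃ n, d = n + 2 := ⟨d - 2, by omega⟩
  set f := exMap r n with hf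
  set a₀ : Fin (r + 3) → S (r + 3) (n + 2) → ℂ := fun i s => (f.F i).coeff s.1 with ha₀
  have hp₀ : poly (n + 2) a₀ = f.F := poly_coeff f.homogeneous
  have tube := (isCompact_sphere (0 : Fin (r + 3) → ℂ) 1).eventually_forall_of_forall_eventually
    (x₀ := a₀) (P := fun a v => ∀ c : ℂ, E (a, v) = c • v → Good (poly (n + 2) a) v c)
    (fun v hv => by
      have hv0 : v ≠ 0 := by
        rintro rfl
        rw [mem_sphere_zero_iff_norm, norm_zero] at hv
        exact zero_ne_one hv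
      refine loc hd (a₀, v) hv0 fun c hc => ?_
      change (fun i => eval v (poly (n + 2) a₀ i)) = c • v at hc
      change Good (poly (n + 2) a₀) v c
      rw [hp₀] at hc ⊢
      exact good_exMap r n v hv0 c hc)
  obtain ⟨ε, hε, hball⟩ := Metric.eventually_nhds_iff.1 tube
  refine ⟨f, ε, hε, fun G hG hGε => ?_⟩
  set a : Fin (r + 3) → S (r + 3) (n + 2) → ℂ := fun i s => (G i).coeff s.1 with ha
  have hp : poly (n + 2) a = G := poly_coeff hG
  have hdist : dist a a₀ < ε := by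
    rw [dist_pi_lt_iff hε]
    intro i
    rw [dist_pi_lt_iff hε]
    intro s
    rw [dist_eq_norm]
    exact hGε i s.1
  have hsph := hball hdist
  have hgood : ∀ v : Fin (r + 3) → ℂ, v ≠ 0 → ∀ c : ℂ, (fun i => eval v (G i)) = c • v →
      Good G v c := by
    intro v hv c hc
    have hn : ‖v‖ ≠ 0 := norm_ne_zero_iff.2 hv
    set t : ℂ := ((‖v‖⁻¹ : ℝ) : ℂ) with ht
    have ht0 : t ≠ 0 := by
      rw [ht]
      exact_mod_cast inv_ne_zero hn
    refine good_scale hG ht0 v c ?_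
    have h1 : t • v ∈ Metric.sphere (0 : Fin (r + 3) → ℂ) 1 := by
      rw [mem_sphere_zero_iff_norm, norm_smul, ht, Complex.norm_real, norm_inv, norm_norm,
        inv_mul_cancel₀ hn]
    have h2 := hsph (t • v) h1 (t ^ (n + 1) * c)
    rw [hp] at h2
    refine h2 ?_
    change (fun i => eval (t • v) (poly (n + 2) a i)) = _
    rw [hp]
    funext i
    rw [eval_smul_of_homogeneous (hG i), congrFun hc i]
    simp only [Pi.smul_apply, smul_eq_mul]
    ring
  let g : HolMap (r + 2) (n + 2) :=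
    { F := G
      homogeneous := hG
      onlyZero := by
        intro z hz
        by_contra hz0
        refine (hgood z hz0 0 ?_).1 rfl
        funext i
        rw [hz i, zero_smul]
        rfl }
  refine ⟨g, rfl, fun p hpf i hi => ?_⟩
  obtain ⟨c, hc, hfix⟩ := fixed_normalised g p hpf i hi
  set u := ofPlane i p with hu
  have hv : i.insertNth (α := fun _ => ℂ) 1 u ≠ 0 := by
    intro h
    have := congrFun h i
    simp at this
  obtain ⟨-, μ₁, μ₂, w₁, w₂, s₁, s₂, h1, h2, hw₁, hn₁, hw₂, hn₂⟩ := hgood _ hv c hfix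
  obtain ⟨A, hA, hAf⟩ := hasFDerivAt_chart g.lift i u _
    (hasFDerivAt_map G (i.insertNth (α := fun _ => ℂ) 1 u)) c hc hfix
  have hκ : (LinearMap.toContinuousLinearMap (J G (i.insertNth (α := fun _ => ℂ) 1 u)).mulVecLin)
      (i.insertNth (α := fun _ => ℂ) 1 u) =
      (((n + 2 : ℕ) : ℂ) * c) • i.insertNth (α := fun _ => ℂ) 1 u := by
    change J G _ *ᵥ _ = _
    rw [euler hG, mul_smul]
    congr 1
  refine ⟨A, ?_, μ₁, μ₂, ?_, ?_, h1, h2⟩
  · rw [inChart_eq]; exact hA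
  · exact eigen_chart i u _ c hc A hAf _ hκ w₁ μ₁ s₁ hw₁ hn₁
  · exact eigen_chart i u _ c hc A hAf _ hκ w₂ μ₂ s₂ hw₂ hn₂

end Pool.Agent.KS6_17.SAD
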